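import Mathlib
import Pool.Agent.Lib.Pad9061.Gap

set_option autoImplicit false

/-!
# Total space versus depth in resolution: a polynomial gap (exponent `2/3`)
-/

namespace Pool.Agent.Results.MP_ad9061_lc.GapFamily

open Filter
open scoped BigOperators

/-- There are CNFs `F n` over `n` variables, with least resolution depth `D n`, such that
`D n ≥ n ^ (1/6) / 200` for all large `n` (so `D n / (log n) ^ k → ∞` for every `k`), and for all
large `n` the formula `F n` has a space-aware refutation of total space at most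
`112 * (D n) ^ (2/3)`. -/
theorem result :
    ∃ F : (n : ℕ) → Finset (Finset (Fin n × Bool)),
    ∃ D : ℕ → ℕ,
      (∀ n : ℕ, IsLeast
        {d : ℕ | ∃ r : Finset (Fin n × Bool) → ℕ, ∃ S : Set (Finset (Fin n × Bool)),
          (∅ : Finset (Fin n × Bool)) ∈ S ∧
          ∀ C ∈ S, r C ≤ d ∧
            (C ∈ F n ∨
              ∃ A ∈ S, ∃ B ∈ S, ∃ v : Fin n,
                (v, true) ∈ A ∧ (v, false) ∈ B ∧
                C = A.erase (v, true) ∪ B.erase (v, false) ∧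
                r A < r C ∧ r B < r C)}
        (D n)) ∧
      (∀ᶠ n : ℕ in atTop, (n : ℝ) ^ (1 / 6 : ℝ) ≤ 200 * (D n : ℝ)) ∧
      (∀ k : ℕ, Tendsto (fun n : ℕ => (D n : ℝ) / Real.log (n : ℝ) ^ k) atTop atTop) ∧
      ∀ᶠ n : ℕ in atTop,
        ∃ τ : ℕ, ∃ M : ℕ → Finset (Finset (Fin n × Bool)),
          M 0 = ∅ ∧
          (∅ : Finset (Fin n × Bool)) ∈ M τ ∧
          (∀ t < τ,
            (∃ C ∈ F n, M (t + 1) = insert C (M t)) ∨
            (∃ A ∈ M t, ∃ B ∈ M t, ∃ v : Fin n,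
              (v, true) ∈ A ∧ (v, false) ∈ B ∧
              M (t + 1) = insert (A.erase (v, true) ∪ B.erase (v, false)) (M t)) ∨
            M (t + 1) ⊆ M t) ∧
          ∀ t ≤ τ, (((∑ C ∈ M t, C.card : ℕ)) : ℝ) ≤ 112 * (D n : ℝ) ^ (2 / 3 : ℝ) := by
  obtain ⟨F, D, h1, h2, h3, h4⟩ := Pool.Agent.Lib.Pad9061.gap_family
  refine ⟨F, D, h1, h2, h3, ?_⟩
  filter_upwards [h4] with n hn
  obtain ⟨s, ⟨τ, M, m1, m2, m3, m4⟩, hs⟩ := hn
  refine ⟨τ, M, m1, m2, m3, fun t ht => le_trans ?_ hs⟩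
  exact_mod_cast m4 t ht

end Pool.Agent.Results.MP_ad9061_lc.GapFamily
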