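import Mathlib
import Pool.Agent.Lib.Pad9061.Joint

set_option autoImplicit false

/-!
# Total space versus depth in resolution: configurations with small squares of the widths, or small
outside one clause
-/

namespace Pool.Agent.Results.MP_ad9061_lc.JointCase

open scoped BigOperators

/-- Let `X` be a set of at most `n ^ w` clauses over `n ≥ 2` variables. If a CNF `F` has a
space-aware refutation of total space at most `s` in which every configuration `M` satisfies one of
the following two conditions, then `F` has a resolution refutation (a DAG without weakening) of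
depth at most `3000 w s (1 + log (s / w)) ^ 2 log n`: the squares of the widths of the clauses of
`M` outside `X` add up to at most `w s`, or `M` has total size at most `w` outside one (arbitrarily
wide) clause. -/
theorem result :
    ∀ n s w : ℕ, 2 ≤ n → 1 ≤ w → w ≤ s → ∀ F : Finset (Finset (Fin n × Bool)),
      ∀ X : Finset (Finset (Fin n × Bool)), X.card ≤ n ^ w →
      (∃ τ : ℕ, ∃ M : ℕ → Finset (Finset (Fin n × Bool)),
        M 0 = ∅ ∧
        (∅ : Finset (Fin n × Bool)) ∈ M τ ∧
        (∀ t < τ,
          (∃ C ∈ F, M (t + 1) = insert C (M t)) ∨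
          (∃ A ∈ M t, ∃ B ∈ M t, ∃ v : Fin n,
            (v, true) ∈ A ∧ (v, false) ∈ B ∧
            M (t + 1) = insert (A.erase (v, true) ∪ B.erase (v, false)) (M t)) ∨
          M (t + 1) ⊆ M t) ∧
        ∀ t ≤ τ, ∑ C ∈ M t, C.card ≤ s ∧
          (∑ C ∈ M t \ X, C.card ^ 2 ≤ w * s ∨ ∃ Y, ∑ C ∈ (M t).erase Y, C.card ≤ w)) →
      ∃ d : ℕ,
        (∃ r : Finset (Fin n × Bool) → ℕ, ∃ S : Set (Finset (Fin n × Bool)),
          (∅ : Finset (Fin n × Bool)) ∈ S ∧
          ∀ C ∈ S, r C ≤ d ∧
            (C ∈ F ∨
              ∃ A ∈ S, ∃ B ∈ S, ∃ v : Fin n,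
                (v, true) ∈ A ∧ (v, false) ∈ B ∧
                C = A.erase (v, true) ∪ B.erase (v, false) ∧
                r A < r C ∧ r B < r C)) ∧
        (d : ℝ) ≤ 3000 * w * s * (1 + Real.log ((s : ℝ) / w)) ^ 2 * Real.log n := by
  intro n s w hn hw hws F X hX hF
  obtain ⟨d, h1, h2⟩ := Pool.Agent.Lib.Pad9061.joint_bound hn hw hws hX hF
  exact ⟨d, h1, h2.trans (le_of_eq (by ring))⟩

end Pool.Agent.Results.MP_ad9061_lc.JointCase
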